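import Pool.Agent.Helper68.ES.St5

/-! Project ES, module CMB: combinatorics. -/

set_option autoImplicit false

open MeasureTheory Set Filter Topology
open scoped ENNReal RealInnerProductSpace

namespace Pool.Agent.Helper37.ES

open Pool.Agent.Helper68.ES Pool.Agent.Helper68.EP Pool.Agent.Helper20.RG
open Pool.Agent.Helper20.RL (RQ Rich BM Fml Hit)
open Pool.Agent.Helper68.LM (Pl BB Bd Av HL ft fm DQ)

open Classical in
theorem hCMB : Pool.Agent.Helper68.ES.StCMB := by
  intro V H m us far hus hm hpair
  by_contra hcon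
  push Not at hcon
  -- number of far elements
  let N : ℕ → ℕ → ℝ := fun w j' => (((H w).filter (fun j => far w j j')).card : ℝ)
  have hN : ∀ w j', 0 ≤ N w j' := fun w j' => Nat.cast_nonneg _
  have hpairs : ∀ w, (((H w ×ˢ H us).filter (fun h => far w h.1 h.2)).card : ℝ) =
      ∑ j' ∈ H us, N w j' := by
    intro w
    simp only [N, Finset.card_filter]
    rw [Finset.sum_product_right]
    push_cast
    rfl
  -- the bad pairs `(w, j')`
  have hw : ∀ w ∈ V, ∑ j' ∈ H us, (if m w / 4 < N w j' then (1 : ℝ) else 0) < (H us).card / 4 := by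
    intro w hwV
    have h1 : m w / 4 * ∑ j' ∈ H us, (if m w / 4 < N w j' then (1 : ℝ) else 0) ≤
        ∑ j' ∈ H us, N w j' := by
      rw [Finset.mul_sum]
      apply Finset.sum_le_sum
      intro j' _
      by_cases h : m w / 4 < N w j'
      · rw [if_pos h, mul_one]; exact h.le
      · rw [if_neg h, mul_zero]; exact hN w j'
    have h2 := hpair w hwV
    rw [hpairs w] at h2
    have h3 := (hm us hus).2
    have h4 := (hm w hwV).1
    have h5 : m w / 4 * ∑ j' ∈ H us, (if m w / 4 < N w j' then (1 : ℝ) else 0) <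
        m w / 4 * ((H us).card / 4) := by
      have : m w * m us / 16 ≤ m w / 4 * ((H us).card / 4) := by
        have := mul_le_mul_of_nonneg_left h3 h4.le
        linarith
      linarith
    exact lt_of_mul_lt_mul_left h5 (by linarith)
  have hcard : 0 < V.card := Finset.card_pos.2 ⟨us, hus⟩
  have hup : ∑ w ∈ V, ∑ j' ∈ H us, (if m w / 4 < N w j' then (1 : ℝ) else 0) <
      V.card * ((H us).card / 4) := by
    have := Finset.sum_lt_sum_of_nonempty ⟨us, hus⟩ hw
    rwa [Finset.sum_const, nsmul_eq_mul] at this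
  rw [Finset.sum_comm] at hup
  have hlow : ∀ j' ∈ H us, (V.card : ℝ) / 4 ≤ ∑ w ∈ V, (if m w / 4 < N w j' then (1 : ℝ) else 0) := by
    intro j' hj'
    have h1 := hcon j' hj'
    have h2 : ((V.filter (fun w => N w j' ≤ m w / 4)).card : ℝ) +
        ((V.filter (fun w => ¬ N w j' ≤ m w / 4)).card : ℝ) = V.card := by
      exact_mod_cast Finset.card_filter_add_card_filter_not (s := V) (fun w => N w j' ≤ m w / 4)
    have h3 : ∑ w ∈ V, (if m w / 4 < N w j' then (1 : ℝ) else 0) =
        ((V.filter (fun w => ¬ N w j' ≤ m w / 4)).card : ℝ) := by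
      rw [Finset.card_filter]
      push_cast
      apply Finset.sum_congr rfl
      intro w _
      simp only [not_le]
    rw [h3]
    have h4 : ((V.filter (fun w => N w j' ≤ m w / 4)).card : ℝ) < 3 / 4 * (V.card : ℝ) := h1
    linarith
  have hsum := Finset.sum_le_sum hlow
  rw [Finset.sum_const, nsmul_eq_mul] at hsum
  have : ((H us).card : ℝ) * (V.card / 4) = V.card * ((H us).card / 4) := by ring
  linarith

end Pool.Agent.Helper37.ES
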