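import Pool.Agent.Helper68.ES.St1

/-! Project ES, module DRC: cells of one scale. -/

set_option autoImplicit false

open MeasureTheory Set Filter Topology
open scoped ENNReal RealInnerProductSpace

namespace Pool.Agent.Helper37.ES

open Pool.Agent.Helper68.ES Pool.Agent.Helper68.EP Pool.Agent.Helper20.RG
open Pool.Agent.Helper20.RL (RQ Rich BM Fml Hit)
open Pool.Agent.Helper68.LM (Pl BB Bd Av HL ft fm DQ)

theorem hDRC (hDRI : StDRI) (hDRB : StDRB) (hDRT : StDRT) : Pool.Agent.Helper68.ES.StDRC := by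
  obtain ⟨C₀, hC₀, hT⟩ := hDRT
  refine ⟨C₀ + 4, by linarith, ?_⟩
  intro J g u s fl F k b D θ nst hs hBM hD hCD hθ hg hb hDn hnst hcard
  have hCD0 : C₀ * D ≤ θ := by nlinarith
  have h4D : 4 * D < θ := by nlinarith
  have hθ0 : 0 < θ := by linarith
  have hba : b ≤ k - (u : ℤ) := by
    have : (0 : ℤ) ≤ 18 * (g : ℤ) := by positivity
    linarith
  have h1 := hT J g s F (k - (u : ℤ)) b D θ nst hs hBM hD hCD0 hθ hg hb hDn hnst hcard
  have h2 : ∑ j ∈ J, volume {z | z ∈ F ∧ Rich F (s j) (k - (u : ℤ)) (k - (fl j : ℤ)) θ z} ≤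
      ∑ j ∈ J, volume (F ∩ Ri F (s j) (k - (u : ℤ)) b θ ((2 : ℝ) ^ (k - (u : ℤ)))) := by
    apply Finset.sum_le_sum
    intro j hj
    apply measure_mono
    rintro z ⟨hzF, hzR⟩
    refine ⟨hzF, ?_⟩
    have h3 : k - (fl j : ℤ) < b :=
      (hDRB F D b hD.le hDn).2.2.1 (s j) (k - (u : ℤ)) (k - (fl j : ℤ)) θ z (hs j hj) hba h4D hzR
    exact (hDRI F (s j) (k - (u : ℤ)) b θ hBM hθ0).2.2.1 _ z (by positivity) ⟨k - (fl j : ℤ), h3.le, hzR⟩
  refine h2.trans (h1.trans ?_)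
  gcongr
  linarith

end Pool.Agent.Helper37.ES
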