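import Pool.Agent.Helper68.ES.St1

/-! Project ES, module DRB: densities. -/

set_option autoImplicit false

open MeasureTheory Set Filter Topology
open scoped ENNReal RealInnerProductSpace

namespace Pool.Agent.Helper37.ES

open Pool.Agent.Helper68.ES Pool.Agent.Helper68.EP Pool.Agent.Helper20.RG
open Pool.Agent.Helper20.RL (RQ Rich BM Fml Hit)
open Pool.Agent.Helper68.LM (Pl BB Bd Av HL ft fm DQ)

/-- one cell of the dyadic grid -/
theorem cell_le {F : Set Pl} {D : ℝ} {b : ℤ} (hDn : Dn F D b) {b' : ℤ} (hb : b ≤ b') (n m : ℤ) :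
    volume (F ∩ {z : Pl | ⌊z 0 / (2 : ℝ) ^ b'⌋ = n ∧ ⌊z 1 / (2 : ℝ) ^ b'⌋ = m}) ≤
      ENNReal.ofReal (D * (4 : ℝ) ^ b') := by
  by_cases h : (F ∩ {z : Pl | ⌊z 0 / (2 : ℝ) ^ b'⌋ = n ∧ ⌊z 1 / (2 : ℝ) ^ b'⌋ = m}).Nonempty
  · obtain ⟨z, hzF, hz0, hz1⟩ := h
    refine le_trans (measure_mono ?_) (hDn z hzF b' hb)
    apply Set.inter_subset_inter_right
    rintro y ⟨hy0, hy1⟩
    refine ⟨?_, ?_⟩
    · rw [hy0, hz0]; simp
    · rw [hy1, hz1]; simp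
  · rw [Set.not_nonempty_iff_eq_empty] at h
    rw [h, measure_empty]
    exact zero_le

/-- an interval of length less than `4` meets at most five unit intervals -/
theorem floor_five {a x y r : ℝ} (ha : 0 < a) (hr : r < 2 * a) (hxy : |y - x| ≤ r) :
    ∃ i ∈ Finset.range 5, ⌊y / a⌋ = ⌊(x - r) / a⌋ + (i : ℤ) := by
  obtain ⟨h1, h2⟩ := abs_le.1 hxy
  have e1 : ⌊(x - r) / a⌋ ≤ ⌊y / a⌋ := by
    apply Int.floor_le_floor
    apply div_le_div_of_nonneg_right _ ha.le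
    linarith
  have e2 : ⌊y / a⌋ < ⌊(x - r) / a⌋ + 5 := by
    rw [Int.floor_lt]
    have h3 : (x - r) / a < ⌊(x - r) / a⌋ + 1 := Int.lt_floor_add_one _
    have h4 : y / a < (x - r) / a + 4 := by
      rw [div_add' _ _ _ ha.ne', div_lt_div_iff_of_pos_right ha]
      linarith
    push_cast
    linarith
  refine ⟨(⌊y / a⌋ - ⌊(x - r) / a⌋).toNat, ?_, ?_⟩
  · rw [Finset.mem_range]
    omega
  · rw [Int.toNat_of_nonneg (by omega)]
    ring

theorem hDRB (hEQ : Pool.Agent.Helper68.EP.StEQ) (hXW : Pool.Agent.Helper68.EP.StXW) :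
    Pool.Agent.Helper68.ES.StDRB := by
  intro F D b hD hDn
  have h1 : ∀ (y : Pl) (b' : ℤ), b ≤ b' → volume (F ∩ DQ b' y) ≤ ENNReal.ofReal (D * (4 : ℝ) ^ b') := by
    intro y b' hb
    refine le_trans (measure_mono ?_) (cell_le hDn hb ⌊y 0 / (2 : ℝ) ^ b'⌋ ⌊y 1 / (2 : ℝ) ^ b'⌋)
    apply Set.inter_subset_inter_right
    intro z hz
    exact ⟨hz 0, hz 1⟩
  refine ⟨h1, ?_, ?_, ?_⟩
  · intro x r hr
    have hr0 : 0 < r := lt_of_lt_of_le (by positivity) hr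
    obtain ⟨b', hb1, hb2⟩ := exists_mem_Ico_zpow (x := r) (y := (2 : ℝ)) hr0 (by norm_num)
    have hbb : b ≤ b' := by
      by_contra hcon
      rw [not_le] at hcon
      have h3 : (2 : ℝ) ^ (b' + 1) ≤ (2 : ℝ) ^ b := zpow_le_zpow_right₀ (by norm_num) (by omega)
      linarith
    have hp : (0 : ℝ) < (2 : ℝ) ^ b' := by positivity
    have hlt : r < 2 * (2 : ℝ) ^ b' := by
      rw [zpow_add₀ (by norm_num), zpow_one] at hb2
      linarith
    have hsub : F ∩ Sq x r ⊆ ⋃ ij ∈ Finset.range 5 ×ˢ Finset.range 5,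
        F ∩ {z : Pl | ⌊z 0 / (2 : ℝ) ^ b'⌋ = ⌊(x 0 - r) / (2 : ℝ) ^ b'⌋ + ((ij.1 : ℕ) : ℤ) ∧
          ⌊z 1 / (2 : ℝ) ^ b'⌋ = ⌊(x 1 - r) / (2 : ℝ) ^ b'⌋ + ((ij.2 : ℕ) : ℤ)} := by
      rintro z ⟨hzF, hz0, hz1⟩
      obtain ⟨i, hi, ei⟩ := floor_five hp hlt hz0
      obtain ⟨j, hj, ej⟩ := floor_five hp hlt hz1
      simp only [Set.mem_iUnion]
      exact ⟨(i, j), Finset.mk_mem_product hi hj, hzF, ei, ej⟩
    calc volume (F ∩ Sq x r) ≤ ∑ ij ∈ Finset.range 5 ×ˢ Finset.range 5,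
        volume (F ∩ {z : Pl | ⌊z 0 / (2 : ℝ) ^ b'⌋ = ⌊(x 0 - r) / (2 : ℝ) ^ b'⌋ + ((ij.1 : ℕ) : ℤ) ∧
          ⌊z 1 / (2 : ℝ) ^ b'⌋ = ⌊(x 1 - r) / (2 : ℝ) ^ b'⌋ + ((ij.2 : ℕ) : ℤ)}) :=
          le_trans (measure_mono hsub) (measure_biUnion_finset_le _ _)
      _ ≤ ∑ ij ∈ Finset.range 5 ×ˢ Finset.range 5, ENNReal.ofReal (D * (4 : ℝ) ^ b') :=
          Finset.sum_le_sum (fun ij _ => cell_le hDn hbb _ _)
      _ = ENNReal.ofReal (25 * (D * (4 : ℝ) ^ b')) := by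
          rw [Finset.sum_const, Finset.card_product, Finset.card_range, nsmul_eq_mul,
            ENNReal.ofReal_mul (by norm_num : (0 : ℝ) ≤ 25)]
          congr 1
          norm_num
      _ ≤ ENNReal.ofReal (25 * D * r ^ 2) := by
          apply ENNReal.ofReal_le_ofReal
          have h4 : (4 : ℝ) ^ b' = ((2 : ℝ) ^ b') ^ 2 := by
            rw [show (4 : ℝ) = 2 * 2 by norm_num, mul_zpow, sq]
          have h5 : ((2 : ℝ) ^ b') ^ 2 ≤ r ^ 2 := pow_le_pow_left₀ hp.le hb1 2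
          rw [h4]
          nlinarith [mul_le_mul_of_nonneg_left h5 hD]
  · intro s a w θ y hs hba hθ hR
    by_contra hcon
    rw [not_lt] at hcon
    have := hXW F s a b w D θ y hs hba hcon hD h1 hR
    linarith
  · intro F' hF' z hz b' hb'
    exact le_trans (measure_mono (Set.inter_subset_inter_left _ hF')) (hDn z (hF' hz) b' hb')

end Pool.Agent.Helper37.ES
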